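import Mathlib
import Pool.Agent.MP_9020c0_gt.Cvx.Main

set_option autoImplicit false

open Pool.Agent.MP_9020c0_gt

namespace Pool.Agent.Results.MP_9020c0_gt.ConvexCase

/-- In a tiling of the plane by bounded closed topological discs whose diameters are bounded from
below, and all but finitely many of which are convex, infinitely many tiles have isoperimetric
ratio at least that of the regular hexagon. -/
theorem result :
    ∀ D₀ : ℝ, 0 < D₀ → ∀ T : ℕ → Set Plane, IsTiling T → (∀ n, D₀ ≤ Metric.diam (T n)) →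
      {n | ¬ Convex ℝ (T n)}.Finite →
      {n | ENNReal.ofReal (8 * √3) ≤ isoRatio (T n)}.Infinite :=
  fun _ hD _ hT hd hc => Cvx.convex_case hD hT hd hc

/-- The inequality of the question for these tilings. -/
theorem q1 (D₀ : ℝ) (hD : 0 < D₀) (T : ℕ → Set Plane) (hT : IsTiling T)
    (hd : ∀ n, D₀ ≤ Metric.diam (T n)) (hc : {n | ¬ Convex ℝ (T n)}.Finite) :
    ENNReal.ofReal (8 * √3) ≤ ⨆ n, isoRatio (T n) := by
  obtain ⟨n, hn⟩ := (result D₀ hD T hT hd hc).nonempty
  exact le_iSup_of_le n hn

end Pool.Agent.Results.MP_9020c0_gt.ConvexCase
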