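import Mathlib
import Pool.Agent.MP_9020c0_gt.Tiling

set_option autoImplicit false

open Pool.Agent.MP_9020c0_gt

namespace Pool.Agent.Results.MP_9020c0_gt.Counterexample

/-- For every positive lower bound on the diameters there is a tiling of the plane by bounded
closed topological discs of at least that diameter whose isoperimetric ratios have supremum
less than that of the regular hexagon. -/
theorem result :
    ∀ D₀ : ℝ, 0 < D₀ → ∃ T : ℕ → Set Plane, IsTiling T ∧ (∀ n, D₀ ≤ Metric.diam (T n)) ∧
      (⨆ n, isoRatio (T n)) < ENNReal.ofReal (8 * √3) := by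
  intro D₀ hD
  obtain ⟨T, h1, h2, h3⟩ := exists_tiling D₀ hD
  refine ⟨T, h1, h2, (iSup_le h3).trans_lt ?_⟩
  have h : (1.73 : ℝ) < √3 := Real.lt_sqrt_of_sq_lt (by norm_num)
  rw [ENNReal.ofReal_lt_ofReal_iff (by linarith)]
  linarith

end Pool.Agent.Results.MP_9020c0_gt.Counterexample
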